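import Mathlib

/-! Hypertrees, collapsibility and the exchange step of the restricted base-exchange chain. -/

namespace Pool.Agent.MP_797bdc_co

/-- The rational boundary vector of a face `σ`: its coordinate at `ρ` is the sum, over the
vertices `v` of `σ` with `σ \ {v} = ρ`, of `(-1) ^ (position of v in σ)`. -/
def bdry {n : ℕ} (σ : Finset (Fin n)) : Finset (Fin n) → ℚ :=
  fun ρ => ∑ v ∈ σ, if σ.erase v = ρ then (-1) ^ (σ.filter (· < v)).card else 0

/-- `T` is a `d`-hypertree on `n` vertices. -/
def IsHypertree (n d : ℕ) (T : Finset (Finset (Fin n))) : Prop :=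
  (∀ σ ∈ T, σ.card = d + 1) ∧ LinearIndependent ℚ (fun σ : T => bdry σ.1) ∧
    T.card = (n - 1).choose d

/-- `T` is `d`-collapsible: one can repeatedly delete a face that is the only one containing some
`(d-1)`-face until nothing is left. -/
inductive Collapsible {n : ℕ} (d : ℕ) : Finset (Finset (Fin n)) → Prop
  | empty : Collapsible d ∅
  | step (T : Finset (Finset (Fin n))) (σ ρ : Finset (Fin n)) : σ ∈ T → ρ.card = d → ρ ⊆ σ →
      (∀ σ' ∈ T, ρ ⊆ σ' → σ' = σ) → Collapsible d (T.erase σ) → Collapsible d T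

/-- One exchange between two `d`-collapsible `d`-hypertrees. -/
def Exchange (n d : ℕ) (T T' : Finset (Finset (Fin n))) : Prop :=
  IsHypertree n d T ∧ Collapsible d T ∧ IsHypertree n d T' ∧ Collapsible d T' ∧
    ∃ τ ∈ T, ∃ σ, σ ∉ T ∧ T' = insert σ (T.erase τ)

end Pool.Agent.MP_797bdc_co
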